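import Pool.Agent.Helper48.FB.St.Stubs

/-!
# Project FB: all stages of the recursion (C2, after Helper53/WR/Tower.lean)
-/

set_option autoImplicit false

namespace Pool.Agent.Helper87.FB

open Finset Filter
open Pool.Agent.Helper53.WR
open Pool.Agent.Helper48.FB
open Pool.Agent.Helper48.FB.St (fi_zero filler_stage ftower_world fi_step)

/-- FB-C2 (all stages; uses A6, A8, B10, C1). `S' 0` is empty. -/
theorem ftower_pieces {a u e t κ w f : ℕ → ℕ} (h : FTow a u e t κ w) (T T' B : ℕ → Finset ℕ)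
    (hT : ∀ k, Top (laT u k) (Fs u k) (f k) (w k) (T k) (T' k) (B k)) :
    ∃ (q : ℕ → ℕ) (S S' A A' R : ℕ → Finset ℕ),
      (∀ i, (q i).Prime ∧ 2 ^ (a i) < q i ∧ q i ≤ 2 ^ (a i + 1)) ∧ S' 0 = ∅ ∧
      (∀ k, S (k + 1) = S k ∪ A k ∪ R k) ∧ (∀ k, S' (k + 1) = S' k ∪ A' k) ∧
      (∀ k, FI a u e κ q k (S k)) ∧ (∀ k, FW a u e t κ f q (B k) k (S k) (A k) (A' k)) ∧
      (∀ k, FR a u e t κ q k (S k) (A k) (R k)) := by
  classical
  obtain ⟨q, hq⟩ := texists_primes a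
  obtain ⟨O0, hO0⟩ := fi_zero h q hq
  have hex : ∀ (k : ℕ) (O : Finset ℕ), ∃ P : Finset ℕ × Finset ℕ × Finset ℕ,
      FI a u e κ q k O → FW a u e t κ f q (B k) k O P.1 P.2.1 ∧
        FR a u e t κ q k O P.1 P.2.2 := by
    intro k O
    by_cases hO : FI a u e κ q k O
    · obtain ⟨A, A', hA⟩ := ftower_world h k q hq (T k) (T' k) (B k) O (hT k) hO
      obtain ⟨R, hR⟩ := filler_stage h k q hq O A hO.bd hO.rep (fun x hx => (hA.rng x hx).2)
        hA.mid hA.far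
      exact ⟨(A, A', R), fun _ => ⟨hA, hR⟩⟩
    · exact ⟨(∅, ∅, ∅), fun h' => absurd h' hO⟩
  choose W hW using hex
  let S : ℕ → Finset ℕ := fun s => Nat.rec O0 (fun s O => O ∪ (W s O).1 ∪ (W s O).2.2) s
  let S' : ℕ → Finset ℕ := fun s => Nat.rec ∅ (fun s O => O ∪ (W s (S s)).2.1) s
  have hS0 : S 0 = O0 := rfl
  have hS1 : ∀ s, S (s + 1) = S s ∪ (W s (S s)).1 ∪ (W s (S s)).2.2 := fun s => rfl
  have hS'0 : S' 0 = ∅ := rfl
  have hS'1 : ∀ s, S' (s + 1) = S' s ∪ (W s (S s)).2.1 := fun s => rfl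
  have hinv : ∀ s, FI a u e κ q s (S s) := by
    intro s
    induction s with
    | zero => rw [hS0]; exact hO0
    | succ s ih =>
      rw [hS1]
      exact fi_step h s q hq (B s) (S s) _ _ _ ih (hW s _ ih).1 (hW s _ ih).2
  exact ⟨q, S, S', fun s => (W s (S s)).1, fun s => (W s (S s)).2.1, fun s => (W s (S s)).2.2,
    hq, hS'0, hS1, hS'1, hinv, fun s => (hW s _ (hinv s)).1, fun s => (hW s _ (hinv s)).2⟩

end Pool.Agent.Helper87.FB
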